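import Pool.Agent.H11.Fan.Many

set_option autoImplicit false

open Set Filter Topology unitInterval

namespace Pool.Agent.H11.Fan

open Pool.Agent.H84.Fan

/-! ### Continuum many fans for one set -/

/-- every nonempty subset has a greatest element -/
def HG {α : Type} [LinearOrder α] (T : Set α) : Prop := ∀ S ⊆ T, S.Nonempty → ∃ m, IsGreatest S m

lemma HG.union {α : Type} [LinearOrder α] {A B : Set α} (hA : HG A) (hB : HG B) : HG (A ∪ B) := by
  intro S hS hne
  by_cases h1 : (S ∩ A).Nonempty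
  · obtain ⟨a, ha⟩ := hA _ inter_subset_right h1
    by_cases h2 : (S ∩ B).Nonempty
    · obtain ⟨b, hb⟩ := hB _ inter_subset_right h2
      refine ⟨max a b, ?_, fun s hs => ?_⟩
      · rcases max_choice a b with e | e <;> rw [e]
        · exact ha.1.1
        · exact hb.1.1
      · rcases hS hs with h | h
        · exact le_max_of_le_left (ha.2 ⟨hs, h⟩)
        · exact le_max_of_le_right (hb.2 ⟨hs, h⟩)
    · refine ⟨a, ha.1.1, fun s hs => ?_⟩
      rcases hS hs with h | h
      · exact ha.2 ⟨hs, h⟩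
      · exact (h2 ⟨s, hs, h⟩).elim
  · refine hB S (fun s hs => ?_) hne
    rcases hS hs with h | h
    · exact (h1 ⟨s, hs, h⟩).elim
    · exact h

lemma HG.single {α : Type} [LinearOrder α] (a : α) : HG ({a} : Set α) := by
  rintro S hS ⟨s, hs⟩
  refine ⟨a, ?_, fun t ht => (hS ht).le⟩
  rw [← mem_singleton_iff.1 (hS hs)]
  exact hs

lemma HG.ins {α : Type} [LinearOrder α] {T : Set α} (hT : HG T) (a : α) : HG (insert a T) := by
  rw [insert_eq]
  exact (HG.single a).union hT

lemma HG.anti {u : ℕ → ℝ} (hu : Antitone u) : HG (range u) := by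
  classical
  rintro S hS ⟨s, hs⟩
  obtain ⟨j, rfl⟩ := hS hs
  have hex : ∃ i, u i ∈ S := ⟨j, hs⟩
  refine ⟨u (Nat.find hex), Nat.find_spec hex, fun t ht => ?_⟩
  obtain ⟨k, rfl⟩ := hS ht
  exact hu (Nat.find_min' hex ht)

noncomputable def q (i : ℕ) : ℝ := 1 / 8 * (1 / 4) ^ i

noncomputable def p (i : ℕ) : ℝ := 3 / 4 * q i

lemma q_pos (i : ℕ) : 0 < q i := by unfold q; positivity

lemma q_succ (i : ℕ) : q (i + 1) = q i / 4 := by unfold q; rw [pow_succ]; ring

lemma q_anti : Antitone q := antitone_nat_of_succ_le fun i => by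
  rw [q_succ]; linarith [q_pos i]

lemma q_le (i : ℕ) : q i ≤ 1 / 8 := by
  have := q_anti (Nat.zero_le i)
  simpa [q] using this

lemma q_sep {i j : ℕ} (h : i < j) : 4 * q j ≤ q i := by
  have := q_anti (Nat.succ_le_of_lt h)
  rw [Nat.succ_eq_add_one, q_succ] at this
  linarith

lemma q_eq {i j : ℕ} (h1 : q j < 4 * q i) (h2 : q i < 4 * q j) : i = j := by
  rcases lt_trichotomy i j with h | h | h
  · linarith [q_sep h]
  · exact h
  · linarith [q_sep h]

lemma p_pos (i : ℕ) : 0 < p i := by unfold p; linarith [q_pos i]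

lemma p_le (i : ℕ) : p i ≤ 3 / 32 := by unfold p; linarith [q_le i]

lemma p_anti : Antitone p := fun i j h => by unfold p; linarith [q_anti h]

lemma q_tendsto : Tendsto q atTop (𝓝 0) := by
  have := (tendsto_pow_atTop_nhds_zero_of_lt_one (r := (1 / 4 : ℝ)) (by norm_num)
    (by norm_num)).const_mul (1 / 8)
  rw [mul_zero] at this
  exact this

lemma p_tendsto : Tendsto p atTop (𝓝 0) := by
  have := q_tendsto.const_mul (3 / 4)
  rw [mul_zero] at this
  exact this

noncomputable def CC (A : Set ℕ) : Set ℝ := ⋂ i ∈ A, (Ioo (q i / 2) (3 * q i / 2))ᶜ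

variable (A : Set ℕ)

lemma mem_CC {t : ℝ} : t ∈ CC A ↔ ∀ i ∈ A, q i / 2 < t → 3 * q i / 2 ≤ t := by
  simp only [CC, mem_iInter, mem_compl_iff, mem_Ioo, not_and, not_lt]

lemma zero_mem : (0 : ℝ) ∈ CC A := (mem_CC A).2 fun i _ h => by linarith [q_pos i]

lemma big_mem {t : ℝ} (h : 3 / 16 ≤ t) : t ∈ CC A := (mem_CC A).2 fun i _ _ => by
  linarith [q_le i]

lemma half_mem (i : ℕ) : q i / 2 ∈ CC A := (mem_CC A).2 fun j _ h => by
  by_contra hc
  have := q_eq (i := i) (j := j) (by linarith [q_pos i, q_pos j]) (by linarith [q_pos i, q_pos j])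
  subst this
  linarith

lemma q_mem {i : ℕ} (hi : i ∉ A) : q i ∈ CC A := (mem_CC A).2 fun j hj h => by
  by_contra hc
  have := q_eq (i := i) (j := j) (by linarith [q_pos i, q_pos j]) (by linarith [q_pos i, q_pos j])
  exact hi (this ▸ hj)

lemma p_mem {i : ℕ} (hi : i ∉ A) : p i ∈ CC A := (mem_CC A).2 fun j hj h => by
  unfold p at h ⊢
  by_contra hc
  have := q_eq (i := i) (j := j) (by linarith [q_pos i, q_pos j]) (by linarith [q_pos i, q_pos j])
  exact hi (this ▸ hj)

noncomputable def ff (t : ℝ) : ℝ := t - 1 / 2 * Metric.infDist t (CC A)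

lemma ff_cont : Continuous (ff A) := by
  have := Metric.continuous_infDist_pt (CC A)
  unfold ff
  fun_prop

lemma ff_lt {s t : ℝ} (h : s < t) : ff A s < ff A t := by
  have h1 := Metric.infDist_le_infDist_add_dist (s := CC A) (x := t) (y := s)
  rw [Real.dist_eq, abs_of_pos (sub_pos.2 h)] at h1
  unfold ff
  linarith

lemma ff_mem {t : ℝ} (h : t ∈ CC A) : ff A t = t := by
  unfold ff
  rw [Metric.infDist_zero_of_mem h]
  ring

lemma ff_le (t : ℝ) : ff A t ≤ t := by
  unfold ff
  linarith [Metric.infDist_nonneg (x := t) (s := CC A)]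

lemma ff_q {i : ℕ} (hi : i ∈ A) : ff A (q i) = p i := by
  have h1 : Metric.infDist (q i) (CC A) ≤ q i / 2 := by
    refine (Metric.infDist_le_dist_of_mem (half_mem A i)).trans ?_
    rw [Real.dist_eq, abs_of_pos (by linarith [q_pos i])]
    linarith
  have h2 : q i / 2 ≤ Metric.infDist (q i) (CC A) := by
    refine (Metric.le_infDist ⟨0, zero_mem A⟩).2 fun y hy => ?_
    rw [Real.dist_eq]
    by_cases h : q i / 2 < y
    · have := (mem_CC A).1 hy i hi h
      rw [abs_sub_comm]
      exact (by linarith : q i / 2 ≤ y - q i).trans (le_abs_self _)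
    · exact (by linarith : q i / 2 ≤ q i - y).trans (le_abs_self _)
  unfold ff p
  linarith

/-- the set of parameters -/
noncomputable def XR : Set ℝ :=
  insert 0 (range p) ∪ insert 0 (range q) ∪ insert (3 / 8) (range fun i => 3 / 8 + p i) ∪ {1 / 4, 5 / 8}

lemma XR_compact : IsCompact XR := by
  have h3 : Tendsto (fun i => 3 / 8 + p i) atTop (𝓝 (3 / 8)) := by
    have := p_tendsto.const_add (3 / 8)
    rwa [add_zero] at this
  exact ((p_tendsto.isCompact_insert_range.union q_tendsto.isCompact_insert_range).union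
    h3.isCompact_insert_range).union (toFinite _).isCompact

lemma XR_HG : HG XR := by
  refine (((HG.anti p_anti).ins 0).union ((HG.anti q_anti).ins 0)).union
    ((HG.anti fun i j h => ?_).ins _) |>.union ((HG.single _).ins _)
  have := p_anti h
  linarith

def XX : Set I := {r | (r : ℝ) ∈ XR}

lemma XX_closed : IsClosed XX := XR_compact.isClosed.preimage continuous_subtype_val

lemma XX_HG : HG XX := by
  rintro S hS ⟨s, hs⟩
  obtain ⟨m, ⟨r, hr, rfl⟩, h2⟩ := XR_HG (Subtype.val '' S)
    (by rintro _ ⟨r, hr, rfl⟩; exact hS hr) ⟨_, s, hs, rfl⟩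
  exact ⟨r, hr, fun t ht => h2 ⟨t, ht, rfl⟩⟩

/-- the second order levels -/
noncomputable def YR : Set ℝ := insert (1 / 4) (insert 0 (range p))

noncomputable def gg : I → ℝ := fun r => ff A r

lemma fan_A : ∃ c : Wt, Second (top c) XX (gg A ⁻¹' YR) := by
  have f0 : ff A 0 = 0 := ff_mem A (zero_mem A)
  have f1 : ff A 1 = 1 := ff_mem A (big_mem A (by norm_num))
  obtain ⟨gc, gi, gr, gm⟩ := mk_g (f := ff A) (ff_cont A) (fun s t _ h _ => ff_lt A h) f0 f1
  change Continuous (gg A) at gc
  change Function.Injective (gg A) at gi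
  change range (gg A) = _ at gr
  change Monotone (gg A) at gm
  have g0 : gg A 0 = 0 := by simpa [gg] using f0
  have g1 : gg A 1 = 1 := by simpa [gg] using f1
  have hZ : IsClosed (gg A '' XX) := (XX_closed.isCompact.image gc).isClosed
  have mk : ∀ t : ℝ, t ∈ XR → 0 ≤ t → t ≤ 1 → ff A t ∈ gg A '' XX := fun t ht h1 h2 =>
    ⟨⟨t, h1, h2⟩, ht, rfl⟩
  have z0 : (0 : ℝ) ∈ gg A '' XX := by
    have := mk 0 (Or.inl (Or.inl (Or.inl (mem_insert _ _)))) le_rfl zero_le_one
    rwa [f0] at this
  have zp : ∀ i, p i ∈ gg A '' XX := fun i => by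
    by_cases hi : i ∈ A
    · have := mk (q i) (Or.inl (Or.inl (Or.inr (mem_insert_of_mem _ ⟨i, rfl⟩)))) (q_pos i).le
        (by linarith [q_le i])
      rwa [ff_q A hi] at this
    · have := mk (p i) (Or.inl (Or.inl (Or.inl (mem_insert_of_mem _ ⟨i, rfl⟩)))) (p_pos i).le
        (by linarith [p_le i])
      rwa [ff_mem A (p_mem A hi)] at this
  have zP : ∀ t ∈ insert 0 (range p), t ∈ gg A '' XX := by
    rintro t (rfl | ⟨i, rfl⟩)
    · exact z0
    · exact zp i
  have bP : ∀ t ∈ insert 0 (range p), 0 ≤ t ∧ t ≤ 3 / 32 := by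
    rintro t (rfl | ⟨i, rfl⟩)
    · norm_num
    · exact ⟨(p_pos i).le, p_le i⟩
  have z3 : ∀ t ∈ insert 0 (range p), 3 / 8 + t ∈ gg A '' XX := by
    intro t ht
    have h1 : 3 / 8 + t ∈ XR := by
      left; right
      rcases ht with rfl | ⟨i, rfl⟩
      · left; norm_num
      · exact Or.inr ⟨i, rfl⟩
    have h2 := bP t ht
    have := mk (3 / 8 + t) h1 (by linarith) (by linarith)
    rwa [ff_mem A (big_mem A (by linarith))] at this
  have zq : (1 / 4 : ℝ) ∈ gg A '' XX := by
    have := mk (1 / 4) (Or.inr (Or.inl rfl)) (by norm_num) (by norm_num)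
    rwa [ff_mem A (big_mem A (by norm_num))] at this
  have zM : (5 / 8 : ℝ) ∈ gg A '' XX := by
    have := mk (5 / 8) (Or.inr (Or.inr rfl)) (by norm_num) (by norm_num)
    rwa [ff_mem A (big_mem A (by norm_num))] at this
  have zc : ∀ s ∈ gg A '' XX, 0 ≤ s ∧
      (s = 5 / 8 ∨ (∃ t ∈ insert 0 (range p), s = 3 / 8 + t) ∨ s ≤ 1 / 4) := by
    rintro _ ⟨r, hr, rfl⟩
    refine ⟨g0 ▸ gm (show (0 : I) ≤ r from r.2.1), ?_⟩
    rcases hr with ((((h : (r : ℝ) = 0) | ⟨i, h⟩) | ((h : (r : ℝ) = 0) | ⟨i, h⟩)) |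
      ((h : (r : ℝ) = 3 / 8) | ⟨i, h⟩)) | ((h : (r : ℝ) = 1 / 4) | (h : (r : ℝ) = 5 / 8))
    · right; right
      have := ff_le A r
      change ff A r ≤ _
      linarith
    · right; right
      have := ff_le A r
      change ff A r ≤ _
      linarith [p_le i]
    · right; right
      have := ff_le A r
      change ff A r ≤ _
      linarith
    · right; right
      have := ff_le A r
      change ff A r ≤ _
      linarith [q_le i]
    · right; left
      refine ⟨0, mem_insert _ _, ?_⟩
      change ff A r = _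
      rw [h, ff_mem A (big_mem A (by norm_num))]
      norm_num
    · right; left
      refine ⟨p i, mem_insert_of_mem _ ⟨i, rfl⟩, ?_⟩
      change ff A r = _
      dsimp only at h
      rw [← h, ff_mem A (big_mem A (by linarith [p_pos i]))]
    · right; right
      have := ff_le A r
      change ff A r ≤ _
      linarith
    · left
      change ff A r = _
      rw [h, ff_mem A (big_mem A (by norm_num))]
  obtain ⟨c, c1, c2, c3⟩ := exists_c (Z := gg A '' XX)
    (fun s hs => by
      rcases (zc s hs).2 with h | ⟨t, ht, h⟩ | h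
      · linarith
      · linarith [bP t ht]
      · linarith) zM
  have ck : ∀ k, c.1 k = 3 / 8 ∨ (∃ t ∈ insert 0 (range p), c.1 k = 5 / 8 - t) ∨ 3 / 4 ≤ c.1 k := by
    intro k
    rcases (zc _ (c1 k)).2 with h | ⟨t, ht, h⟩ | h
    · left; linarith
    · right; left; exact ⟨t, ht, by linarith⟩
    · right; right; linarith
  have ck' : ∀ k, 3 / 8 ≤ c.1 k := by
    intro k
    rcases ck k with h | ⟨t, ht, h⟩ | h
    · linarith
    · linarith [bP t ht]
    · linarith
  have wpos : ∀ d : Γ, 0 ≤ d → d ≠ 0 → 3 / 8 ≤ wt c d := fun d hd hd0 => by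
    obtain ⟨k, d', h1, h2⟩ := wt_dec c hd hd0
    linarith [wt_nonneg c h1, ck' k]
  have hYsub : YR ⊆ range (gg A) := by
    rw [gr]
    rintro t (rfl | ht)
    · norm_num
    · have := bP t ht
      exact ⟨this.1, by linarith⟩
  have hYc : IsClosed YR := by
    unfold YR
    rw [insert_eq]
    exact isClosed_singleton.union p_tendsto.isCompact_insert_range.isClosed
  refine ⟨c, second hZ z0 (fun s hs => ⟨(zc s hs).1, by
      rcases (zc s hs).2 with h | ⟨t, ht, h⟩ | h
      · linarith
      · linarith [bP t ht]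
      · linarith⟩)
    ?_ ?_ (Y := YR) hYc (Or.inr (mem_insert _ _)) ?_ ?_ gc gi gr g0 g1 rfl
    (image_preimage_eq_of_subset hYsub)⟩
  · intro d hd hd0
    obtain ⟨k, d', h1, h2⟩ := wt_dec c hd hd0
    by_cases e : d' = 0
    · have : 1 - wt c d = 1 - c.1 k := by rw [h2, e, map_zero, add_zero]
      rw [this, max_eq_right (zc _ (c1 k)).1]
      exact c1 k
    obtain ⟨k', d'', h3, h4⟩ := wt_dec c h1 e
    by_cases e' : d'' = 0
    · have e2 : wt c d = c.1 k + c.1 k' := by rw [h2, h4, e', map_zero, add_zero]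
      rcases ck k with r | ⟨t, ht, r⟩ | r <;> rcases ck k' with r' | ⟨t', ht', r'⟩ | r'
      · rw [e2, r, r', show max 0 (1 - (3 / 8 + 3 / 8 : ℝ)) = 1 / 4 by norm_num]
        exact zq
      · rw [show 1 - wt c d = t' by rw [e2, r, r']; ring, max_eq_right (bP t' ht').1]
        exact zP t' ht'
      · rw [max_eq_left (by linarith)]; exact z0
      · rw [show 1 - wt c d = t by rw [e2, r, r']; ring, max_eq_right (bP t ht).1]
        exact zP t ht
      · rw [max_eq_left (by linarith [bP t ht, bP t' ht'])]; exact z0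
      · rw [max_eq_left (by linarith [bP t ht])]; exact z0
      · rw [max_eq_left (by linarith)]; exact z0
      · rw [max_eq_left (by linarith [bP t' ht'])]; exact z0
      · rw [max_eq_left (by linarith)]; exact z0
    · rw [max_eq_left]
      · exact z0
      · linarith [wpos d'' h3 e', ck' k, ck' k']
  · refine c3.trans (closure_mono ?_)
    rintro s ⟨hs, ha⟩
    have := zc s hs
    refine ⟨⟨this.1, ?_⟩, 1 - s, ha, ?_⟩
    · rcases this.2 with h | ⟨t, ht, h⟩ | h
      · linarith
      · linarith [bP t ht]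
      · linarith
    · rw [sub_sub_cancel, max_eq_right this.1]
  · intro v hv d hd hd0
    have y0 : (0 : ℝ) ∈ YR := Or.inr (mem_insert _ _)
    obtain ⟨k, d', h1, h2⟩ := wt_dec c hd hd0
    by_cases e : d' = 0
    · have e1 : wt c d = c.1 k := by rw [h2, e, map_zero, add_zero]
      rcases (zc v hv).2 with h | ⟨t, ht, h⟩ | h
      · rcases ck k with r | ⟨t', ht', r⟩ | r
        · rw [e1, h, r]
          left
          norm_num
        · rw [show v - wt c d = t' by rw [e1, h, r]; ring, max_eq_right (bP t' ht').1]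
          exact Or.inr ht'
        · rw [max_eq_left (by linarith)]; exact y0
      · rcases ck k with r | ⟨t', ht', r⟩ | r
        · rw [show v - wt c d = t by rw [e1, h, r]; ring, max_eq_right (bP t ht).1]
          exact Or.inr ht
        · rw [max_eq_left (by linarith [bP t ht, bP t' ht'])]; exact y0
        · rw [max_eq_left (by linarith [bP t ht])]; exact y0
      · rw [max_eq_left (by linarith [ck' k])]; exact y0
    · have w1 := wpos d' h1 e
      have w2 := ck' k
      rw [max_eq_left]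
      · exact y0
      · rcases (zc v hv).2 with h | ⟨t, ht, h⟩ | h
        · linarith
        · linarith [bP t ht]
        · linarith
  · intro s hs
    have a1 : Att c (3 / 8) := by have := c2 1 one_pos; norm_num at this; exact this
    rcases hs with rfl | hs
    · exact ⟨by norm_num, 5 / 8, zM, by norm_num, 3 / 8, a1, by norm_num⟩
    · have := bP s hs
      refine ⟨⟨this.1, by linarith⟩, 3 / 8 + s, z3 s hs, by linarith, 3 / 8, a1, ?_⟩
      rw [add_sub_cancel_left, max_eq_right this.1]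

lemma q_iff (i : ℕ) (h : q i ∈ Icc (0 : ℝ) 1) : (⟨q i, h⟩ : I) ∈ gg A ⁻¹' YR ↔ i ∈ A := by
  show ff A (q i) ∈ YR ↔ i ∈ A
  constructor
  · intro hY
    by_contra hi
    rw [ff_mem A (q_mem A hi)] at hY
    rcases hY with e | (e | ⟨j, e⟩)
    · linarith [q_le i]
    · linarith [q_pos i]
    · unfold p at e
      have := q_eq (i := i) (j := j) (by linarith [q_pos i, q_pos j]) (by linarith [q_pos i, q_pos j])
      subst this
      linarith [q_pos i]
  · intro hi
    rw [ff_q A hi]
    exact Or.inr (Or.inr ⟨i, rfl⟩)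

theorem continuum : ∃ c : Set ℕ → Wt, (∀ A, EPG (top (c A)) XX) ∧
    ∀ A B, Nonempty (FF (c A) ≃ₜ FF (c B)) → A = B := by
  choose c hc using fan_A
  refine ⟨c, fun A => (hc A).epg, fun A B ⟨h⟩ => ?_⟩
  obtain ⟨g, g1, g2⟩ := transport h isFan isFan (hc A) (hc B) (blade (c A))
  ext i
  have hi : q i ∈ Icc (0 : ℝ) 1 := ⟨(q_pos i).le, by linarith [q_le i]⟩
  have hX : (⟨q i, hi⟩ : I) ∈ XX := Or.inl (Or.inl (Or.inr (mem_insert_of_mem _ ⟨i, rfl⟩)))
  have hfix := fixes XX_HG g g1 hX
  rw [← q_iff A i hi, ← q_iff B i hi, ← g2]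
  constructor
  · intro hA
    exact ⟨_, hA, hfix⟩
  · rintro ⟨r, hr, e⟩
    rw [← hfix] at e
    rw [← g.injective e]
    exact hr

end Pool.Agent.H11.Fan
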