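import Pool.Agent.H11.Fan.Second

set_option autoImplicit false

open Set Filter Topology unitInterval

namespace Pool.Agent.H11.Fan

open Pool.Agent.H84.Fan

/-! ### Piecewise linear maps -/

noncomputable def L (p q t : ℝ) : ℝ := (min (max t p) q - p) / (q - p)

lemma L_cont (p q : ℝ) : Continuous (L p q) := by unfold L; fun_prop

lemma L_mono {p q : ℝ} (h : p < q) : Monotone (L p q) := fun s t hst => by
  unfold L
  have h1 : (0 : ℝ) < q - p := by linarith
  gcongr

lemma L_lt {p q s t : ℝ} (h : p < q) (h1 : p ≤ s) (h2 : s < q) (h3 : s < t) : L p q s < L p q t := by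
  unfold L
  have h4 : (0 : ℝ) < q - p := by linarith
  rw [div_lt_div_iff_of_pos_right h4, max_eq_left h1, max_eq_left (by linarith), min_eq_left h2.le]
  have : s < min t q := lt_min h3 h2
  linarith

lemma L_zero {p q t : ℝ} (h : p < q) (h1 : t ≤ p) : L p q t = 0 := by
  unfold L
  rw [max_eq_right h1, min_eq_left h.le, sub_self, zero_div]

lemma L_one {p q t : ℝ} (h : p < q) (h1 : q ≤ t) : L p q t = 1 := by
  unfold L
  rw [max_eq_left (by linarith), min_eq_right h1, div_self (by linarith)]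

lemma mk_g {f : ℝ → ℝ} (hc : Continuous f) (hm : ∀ s t : ℝ, 0 ≤ s → s < t → t ≤ 1 → f s < f t)
    (h0 : f 0 = 0) (h1 : f 1 = 1) :
    Continuous (fun r : I => f r) ∧ Function.Injective (fun r : I => f r) ∧
      range (fun r : I => f r) = Icc 0 1 ∧ Monotone (fun r : I => f r) := by
  have hst : StrictMono (fun r : I => f r) := fun r s h => hm r s r.2.1 h s.2.2
  refine ⟨hc.comp continuous_subtype_val, hst.injective, ?_, hst.monotone⟩
  apply subset_antisymm
  · rintro _ ⟨r, rfl⟩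
    have a1 := hst.monotone (show (0 : I) ≤ r from r.2.1)
    have a2 := hst.monotone (show r ≤ (1 : I) from r.2.2)
    simp only [Icc.coe_zero, Icc.coe_one, h0, h1] at a1 a2
    exact ⟨a1, a2⟩
  · have := intermediate_value_univ (0 : I) 1 (f := fun r : I => f r)
      (hc.comp continuous_subtype_val)
    simpa only [Icc.coe_zero, Icc.coe_one, h0, h1] using this

noncomputable def fx (x N M t : ℝ) : ℝ :=
  1 / 4 * L 0 x t + 1 / 16 * L x N t + 5 / 16 * L N M t + 3 / 8 * L M 1 t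

noncomputable def fM (M t : ℝ) : ℝ := 1 / 4 * L 0 M t + 3 / 4 * L M 1 t

section fx
variable {x N M : ℝ} (h1 : 0 < x) (h2 : x < N) (h3 : N < M) (h4 : M < 1)
include h1 h2 h3 h4

lemma fx_lt (s t : ℝ) (hs : 0 ≤ s) (hst : s < t) (ht : t ≤ 1) : fx x N M s < fx x N M t := by
  unfold fx
  have e1 := L_mono h1 hst.le
  have e2 := L_mono h2 hst.le
  have e3 := L_mono h3 hst.le
  have e4 := L_mono h4 hst.le
  rcases lt_or_ge s x with h | h
  · linarith [L_lt h1 hs h hst]
  rcases lt_or_ge s N with h' | h'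
  · linarith [L_lt h2 h h' hst]
  rcases lt_or_ge s M with h'' | h''
  · linarith [L_lt h3 h' h'' hst]
  · linarith [L_lt h4 h'' (by linarith) hst]

lemma fx_zero : fx x N M 0 = 0 := by
  unfold fx
  rw [L_zero h1 le_rfl, L_zero h2 h1.le, L_zero h3 (by linarith), L_zero h4 (by linarith)]
  norm_num

lemma fx_one : fx x N M 1 = 1 := by
  unfold fx
  rw [L_one h1 (by linarith), L_one h2 (by linarith), L_one h3 (by linarith), L_one h4 le_rfl]
  norm_num

lemma fx_x : fx x N M x = 1 / 4 := by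
  unfold fx
  rw [L_one h1 le_rfl, L_zero h2 le_rfl, L_zero h3 (by linarith), L_zero h4 (by linarith)]
  norm_num

lemma fx_N : fx x N M N = 5 / 16 := by
  unfold fx
  rw [L_one h1 (by linarith), L_one h2 le_rfl, L_zero h3 le_rfl, L_zero h4 (by linarith)]
  norm_num

lemma fx_M : fx x N M M = 5 / 8 := by
  unfold fx
  rw [L_one h1 (by linarith), L_one h2 (by linarith), L_one h3 le_rfl, L_zero h4 le_rfl]
  norm_num

end fx

section fM
variable {M : ℝ} (h1 : 0 < M) (h4 : M < 1)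
include h1 h4

lemma fM_lt (s t : ℝ) (hs : 0 ≤ s) (hst : s < t) (ht : t ≤ 1) : fM M s < fM M t := by
  unfold fM
  have e1 := L_mono h1 hst.le
  have e4 := L_mono h4 hst.le
  rcases lt_or_ge s M with h | h
  · linarith [L_lt h1 hs h hst]
  · linarith [L_lt h4 h (by linarith) hst]

lemma fM_zero : fM M 0 = 0 := by
  unfold fM
  rw [L_zero h1 le_rfl, L_zero h4 h1.le]
  norm_num

lemma fM_one : fM M 1 = 1 := by
  unfold fM
  rw [L_one h1 h4.le, L_one h4 le_rfl]
  norm_num

lemma fM_M : fM M M = 1 / 4 := by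
  unfold fM
  rw [L_one h1 le_rfl, L_zero h4 le_rfl]
  norm_num

end fM

/-! ### The fans -/

/-- the fan with one level of second order -/
lemma fan_x {X : Set I} (hX : IsClosed X) (h0 : 0 ∈ X) {x M N : I} (hx : x ∈ X) (hM : M ∈ X)
    (hx0 : 0 < x) (hxN : x < N) (hNM : N < M) (hM1 : M < 1) (hN : ∀ r ∈ X, r ≤ N ∨ r = M) :
    ∃ c : Wt, Second (top c) X {0, x} := by
  have r1 : (0 : ℝ) < x := hx0
  have r2 : (x : ℝ) < N := hxN
  have r3 : (N : ℝ) < M := hNM
  have r4 : (M : ℝ) < 1 := hM1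
  have f0 := fx_zero r1 r2 r3 r4
  have f1 := fx_one r1 r2 r3 r4
  obtain ⟨gc, gi, gr, gm⟩ := mk_g (f := fx x N M) (by unfold fx; have := L_cont; fun_prop)
    (fx_lt r1 r2 r3 r4) f0 f1
  set g : I → ℝ := fun r => fx x N M r with hg
  have g0 : g 0 = 0 := by simpa [hg] using f0
  have g1 : g 1 = 1 := by simpa [hg] using f1
  have gx : g x = 1 / 4 := fx_x r1 r2 r3 r4
  have gN : g N = 5 / 16 := fx_N r1 r2 r3 r4
  have gM : g M = 5 / 8 := fx_M r1 r2 r3 r4
  have hZ : IsClosed (g '' X) := (hX.isCompact.image gc).isClosed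
  have z0 : (0 : ℝ) ∈ g '' X := ⟨0, h0, g0⟩
  have zx : (1 / 4 : ℝ) ∈ g '' X := ⟨x, hx, gx⟩
  have zM : (5 / 8 : ℝ) ∈ g '' X := ⟨M, hM, gM⟩
  have zc : ∀ s ∈ g '' X, 0 ≤ s ∧ (s ≤ 5 / 16 ∨ s = 5 / 8) := by
    rintro _ ⟨r, hr, rfl⟩
    refine ⟨g0 ▸ gm (show (0 : I) ≤ r from r.2.1), ?_⟩
    rcases hN r hr with h | rfl
    · exact Or.inl (gN ▸ gm h)
    · exact Or.inr gM
  obtain ⟨c, c1, c2, c3⟩ := exists_c (Z := g '' X)
    (fun s hs => by rcases (zc s hs).2 with h | h <;> linarith) zM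
  have ck : ∀ k, 11 / 16 ≤ c.1 k ∨ c.1 k = 3 / 8 := fun k => by
    rcases (zc _ (c1 k)).2 with h | h
    · left; linarith
    · right; linarith
  have wpos : ∀ d : Γ, 0 ≤ d → d ≠ 0 → 3 / 8 ≤ wt c d := fun d hd hd0 => by
    obtain ⟨k, d', h1, h2⟩ := wt_dec c hd hd0
    rcases ck k with e | e <;> linarith [wt_nonneg c h1]
  refine ⟨c, second hZ z0 (fun s hs => ⟨(zc s hs).1, by rcases (zc s hs).2 with h | h <;> linarith⟩)
    ?_ ?_ (Y := {0, 1 / 4}) (toFinite _).isClosed (by simp) ?_ ?_ gc gi gr g0 g1 rfl ?_⟩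
  · intro d hd hd0
    obtain ⟨k, d', h1, h2⟩ := wt_dec c hd hd0
    by_cases e : d' = 0
    · have : 1 - wt c d = 1 - c.1 k := by rw [h2, e, map_zero, add_zero]
      rw [this, max_eq_right (zc _ (c1 k)).1]
      exact c1 k
    obtain ⟨k', d'', h3, h4⟩ := wt_dec c h1 e
    by_cases e' : d'' = 0
    · have e2 : wt c d = c.1 k + c.1 k' := by rw [h2, h4, e', map_zero, add_zero]
      rcases ck k with q | q <;> rcases ck k' with q' | q'
      · rw [max_eq_left (by linarith)]; exact z0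
      · rw [max_eq_left (by linarith)]; exact z0
      · rw [max_eq_left (by linarith)]; exact z0
      · rw [e2, q, q', show max 0 (1 - (3 / 8 + 3 / 8 : ℝ)) = 1 / 4 by norm_num]
        exact zx
    · have := wpos d'' h3 e'
      have := wt_nonneg c h3
      rw [max_eq_left]
      · exact z0
      · rcases ck k with q | q <;> rcases ck k' with q' | q' <;> linarith
  · refine c3.trans (closure_mono ?_)
    rintro s ⟨hs, ha⟩
    have := zc s hs
    refine ⟨⟨this.1, by rcases this.2 with h | h <;> linarith⟩, 1 - s, ha, ?_⟩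
    rw [sub_sub_cancel, max_eq_right this.1]
  · intro v hv d hd hd0
    rcases (zc v hv).2 with h | h
    · left
      exact max_eq_left (by linarith [wpos d hd hd0])
    · obtain ⟨k, d', h1, h2⟩ := wt_dec c hd hd0
      by_cases e : d' = 0
      · have : wt c d = c.1 k := by rw [h2, e, map_zero, add_zero]
        rcases ck k with q | q
        · left; exact max_eq_left (by linarith)
        · right
          rw [this, h, q]
          norm_num
      · left
        have := wpos d' h1 e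
        refine max_eq_left ?_
        rcases ck k with q | q <;> linarith
  · intro s hs
    have a1 : Att c (3 / 8) := by have := c2 1 one_pos; norm_num at this; exact this
    have a2 : Att c (3 / 4) := by have := c2 2 two_pos; norm_num at this; exact this
    rcases hs with rfl | hs
    · exact ⟨by norm_num, 5 / 8, zM, by norm_num, 3 / 4, a2, by norm_num⟩
    · rw [mem_singleton_iff] at hs
      subst hs
      exact ⟨by norm_num, 5 / 8, zM, by norm_num, 3 / 8, a1, by norm_num⟩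
  · rw [image_pair, g0, gx]

/-- the fan without levels of second order -/
lemma fan_M {X : Set I} (hX : IsClosed X) (h0 : 0 ∈ X) {M : I} (hM : M ∈ X)
    (hM0 : 0 < M) (hM1 : M < 1) (hN : ∀ r ∈ X, r ≤ M) :
    ∃ c : Wt, Second (top c) X {0} := by
  have r1 : (0 : ℝ) < M := hM0
  have r4 : (M : ℝ) < 1 := hM1
  have f0 := fM_zero r1 r4
  have f1 := fM_one r1 r4
  obtain ⟨gc, gi, gr, gm⟩ := mk_g (f := fM M) (by unfold fM; have := L_cont; fun_prop)
    (fM_lt r1 r4) f0 f1
  set g : I → ℝ := fun r => fM M r with hg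
  have g0 : g 0 = 0 := by simpa [hg] using f0
  have g1 : g 1 = 1 := by simpa [hg] using f1
  have gM : g M = 1 / 4 := fM_M r1 r4
  have hZ : IsClosed (g '' X) := (hX.isCompact.image gc).isClosed
  have z0 : (0 : ℝ) ∈ g '' X := ⟨0, h0, g0⟩
  have zM : (1 / 4 : ℝ) ∈ g '' X := ⟨M, hM, gM⟩
  have zc : ∀ s ∈ g '' X, 0 ≤ s ∧ s ≤ 1 / 4 := by
    rintro _ ⟨r, hr, rfl⟩
    exact ⟨g0 ▸ gm (show (0 : I) ≤ r from r.2.1), gM ▸ gm (hN r hr)⟩
  obtain ⟨c, c1, c2, c3⟩ := exists_c (Z := g '' X) (fun s hs => by linarith [(zc s hs).2]) zM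
  have ck : ∀ k, 3 / 4 ≤ c.1 k := fun k => by linarith [(zc _ (c1 k)).2]
  have wpos : ∀ d : Γ, 0 ≤ d → d ≠ 0 → 3 / 4 ≤ wt c d := fun d hd hd0 => by
    obtain ⟨k, d', h1, h2⟩ := wt_dec c hd hd0
    linarith [wt_nonneg c h1, ck k]
  refine ⟨c, second hZ z0 (fun s hs => ⟨(zc s hs).1, by linarith [(zc s hs).2]⟩)
    ?_ ?_ (Y := {0}) (toFinite _).isClosed (by simp) ?_ ?_ gc gi gr g0 g1 rfl ?_⟩
  · intro d hd hd0
    obtain ⟨k, d', h1, h2⟩ := wt_dec c hd hd0
    by_cases e : d' = 0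
    · have : 1 - wt c d = 1 - c.1 k := by rw [h2, e, map_zero, add_zero]
      rw [this, max_eq_right (zc _ (c1 k)).1]
      exact c1 k
    · rw [max_eq_left]
      · exact z0
      · linarith [wpos d' h1 e, ck k]
  · refine c3.trans (closure_mono ?_)
    rintro s ⟨hs, ha⟩
    have := zc s hs
    refine ⟨⟨this.1, by linarith⟩, 1 - s, ha, ?_⟩
    rw [sub_sub_cancel, max_eq_right this.1]
  · intro v hv d hd hd0
    exact max_eq_left (by linarith [wpos d hd hd0, (zc v hv).2])
  · intro s hs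
    have a1 : Att c (3 / 4) := by have := c2 1 one_pos; norm_num at this; exact this
    rw [mem_singleton_iff] at hs
    subst hs
    exact ⟨by norm_num, 1 / 4, zM, by norm_num, 3 / 4, a1, by norm_num⟩
  · rw [image_singleton, g0]

lemma blade (c : Wt) : ∃ e ∈ Ends (FF c), ∃ B, IsArc (top c) e B :=
  ⟨pt c 0 1, mem_ends 0, _, arc0 0 ⟨one_pos, le_rfl⟩⟩

/-- The general statement. -/
theorem general (X : Set I) (M : I) (hX : IsClosed X) (h0 : 0 ∈ X) (hM : IsGreatest X M)
    (hM0 : M ≠ 0) (hM1 : M ≠ 1) (hN : ∃ N < M, ∀ r ∈ X, r ≤ N ∨ r = M) :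
    ∃ c : {x : I // x ∈ X ∧ x ≠ 0} → Wt,
      (∀ x, Second (top (c x)) X (if x.1 = M then {0} else {0, x.1})) := by
  have hM0' : 0 < M := unitInterval.pos_iff_ne_zero.2 hM0
  have hM1' : M < 1 := unitInterval.lt_one_iff_ne_one.2 hM1
  have key : ∀ x : {x : I // x ∈ X ∧ x ≠ 0},
      ∃ c : Wt, Second (top c) X (if x.1 = M then {0} else {0, x.1}) := by
    rintro ⟨x, hx, hx0⟩
    by_cases e : x = M
    · simp only [e, if_true]
      exact fan_M hX h0 hM.1 hM0' hM1' hM.2
    · simp only [e, if_false]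
      obtain ⟨N, hN1, hN2⟩ := hN
      have hxM : x < M := (hM.2 hx).lt_of_ne e
      have hxN : x ≤ N := (hN2 x hx).resolve_right e
      obtain ⟨N', h1, h2⟩ := exists_between hN1
      exact fan_x hX h0 hx hM.1 (unitInterval.pos_iff_ne_zero.2 hx0) (hxN.trans_lt h1) h2 hM1'
        fun r hr => (hN2 r hr).imp (fun h => h.trans h1.le) id
  choose c hc using key
  exact ⟨c, hc⟩

/-- homeomorphic members of the family -/
theorem general_iso {X : Set I} {M : I} (hM : IsGreatest X M)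
    {c : {x : I // x ∈ X ∧ x ≠ 0} → Wt}
    (hc : ∀ x, Second (top (c x)) X (if x.1 = M then {0} else {0, x.1}))
    (x y : {x : I // x ∈ X ∧ x ≠ 0}) (h : FF (c x) ≃ₜ FF (c y)) :
    ∃ g : I ≃o I, g '' X = X ∧ g x.1 = y.1 := by
  obtain ⟨g, g1, g2⟩ := transport h isFan isFan (hc x) (hc y) (blade (c x))
  have g0 : g 0 = 0 := g.map_bot
  refine ⟨g, g1, ?_⟩
  by_cases ex : x.1 = M <;> by_cases ey : y.1 = M
  · rw [ex, ey]
    refine le_antisymm (hM.2 (g1 ▸ mem_image_of_mem _ hM.1)) ?_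
    have : M ∈ g '' X := g1.symm ▸ hM.1
    obtain ⟨z, hz, e⟩ := this
    calc M = g z := e.symm
      _ ≤ g M := g.monotone (hM.2 hz)
  · rw [if_pos ex, if_neg ey, image_singleton, g0] at g2
    have : y.1 ∈ ({0} : Set I) := g2 ▸ Or.inr rfl
    exact (y.2.2 this).elim
  · rw [if_neg ex, if_pos ey, image_pair, g0] at g2
    have : g x.1 ∈ ({0} : Set I) := g2 ▸ Or.inr rfl
    rw [mem_singleton_iff] at this
    exact (x.2.2 (g.injective (this.trans g0.symm))).elim
  · rw [if_neg ex, if_neg ey, image_pair, g0] at g2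
    have : g x.1 ∈ ({0, y.1} : Set I) := g2 ▸ Or.inr rfl
    rcases this with h | h
    · exact (x.2.2 (g.injective (h.trans g0.symm))).elim
    · exact h

/-- an order isomorphism preserving a set in which all nonempty subsets have a greatest element
fixes it pointwise -/
lemma fixes {X : Set I} (hX : ∀ S ⊆ X, S.Nonempty → ∃ m, IsGreatest S m) (g : I ≃o I)
    (hg : g '' X = X) {x : I} (hx : x ∈ X) : g x = x := by
  by_contra hcon
  obtain ⟨m, ⟨hm1, hm2⟩, hm3⟩ := hX {x ∈ X | g x ≠ x} (fun z hz => hz.1) ⟨x, hx, hcon⟩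
  have out : ∀ y ∈ X, m < y → g y = y := fun y hy h => by
    by_contra h'
    exact absurd (hm3 ⟨hy, h'⟩) (not_le.2 h)
  rcases lt_or_gt_of_ne hm2 with h | h
  · have : m ∈ g '' X := hg.symm ▸ hm1
    obtain ⟨y, hy, e⟩ := this
    have hmy : m < y := g.lt_iff_lt.1 (by rw [e]; exact h)
    exact hmy.ne (e.symm.trans (out y hy hmy))
  · have h1 : g m ∈ X := hg ▸ mem_image_of_mem _ hm1
    exact hm2 (g.injective (out _ h1 h))

end Pool.Agent.H11.Fan
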