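import Pool.Graph.R_pool_sql_team_ae5b0c61.H84.FanC

set_option autoImplicit false

open Set Filter Topology unitInterval

namespace Pool.Agent.H11.Fan

open Pool.Agent.H84.Fan

section gen
variable {F : Type} [MetricSpace F]

/-- Every blade `B` has a parametrization under which `X` is the set of the points of `B` that are
limits of endpoints outside `B`, and `Y` is the set of the points of `B` that are limits of points
outside `B` which are limits of endpoints but not endpoints. -/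
def Second (t : F) (X Y : Set I) : Prop :=
  ∀ e ∈ Ends F, ∀ B, IsArc t e B → ∃ φ, Param φ t e B ∧ φ '' X = B ∩ closure (Ends F \ B) ∧
    φ '' Y = B ∩ closure ((closure (Ends F) \ Ends F) \ B)

lemma Second.epg {t : F} {X Y : Set I} (h : Second t X Y) : EPG t X := fun e he B hB => by
  obtain ⟨φ, h1, h2, -⟩ := h e he B hB
  exact ⟨φ, h1, h2⟩

variable {G : Type} [MetricSpace G]

lemma arc_map (h : F ≃ₜ G) {x y : F} {A : Set F} (hA : IsArc x y A) :
    IsArc (h x) (h y) (h '' A) := by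
  obtain ⟨φ, h1, rfl, rfl, rfl⟩ := hA
  exact ⟨h ∘ φ, h.isEmbedding.comp h1, rfl, rfl, range_comp _ _⟩

lemma ram_map (h : F ≃ₜ G) {p : F} (hp : Ram p) : Ram (h p) := by
  obtain ⟨e, A, h1, h2⟩ := hp
  refine ⟨h ∘ e, fun i => h '' A i, fun i => arc_map h (h1 i), fun i j hij => ?_⟩
  rw [← image_inter h.injective, h2 i j hij, image_singleton]

lemma top_map (h : F ≃ₜ G) {t : F} {t' : G} (hF : IsFan t) (hG : IsFan t') : h t = t' :=
  (hG.2 _).1 (ram_map h ((hF.2 t).2 rfl))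

lemma ends_image (h : F ≃ₜ G) : h '' Ends F = Ends G := by
  ext z
  constructor
  · rintro ⟨e, he, rfl⟩
    exact ends_map h he
  · intro hz
    exact ⟨h.symm z, ends_map h.symm hz, by simp⟩

lemma transport (h : F ≃ₜ G) {t : F} {t' : G} (hF : IsFan t) (hG : IsFan t') {X Y X' Y' : Set I}
    (hS : Second t X Y) (hS' : Second t' X' Y') (hne : ∃ e ∈ Ends F, ∃ B, IsArc t e B) :
    ∃ g : I ≃o I, g '' X = X' ∧ g '' Y = Y' := by
  obtain ⟨e, he, B, hB⟩ := hne
  obtain ⟨φ, ⟨h1, h2, h3, h4⟩, h5, h6⟩ := hS e he B hB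
  have ht := top_map h hF hG
  have hB' : IsArc t' (h e) (h '' B) := ht ▸ arc_map h hB
  obtain ⟨ψ, ⟨k1, k2, k3, k4⟩, k5, k6⟩ := hS' (h e) (ends_map h he) _ hB'
  have hex : ∀ r : I, ∃ s : I, ψ s = h (φ r) := fun r => by
    have : h (φ r) ∈ h '' B := ⟨φ r, h4 ▸ ⟨r, rfl⟩, rfl⟩
    rw [← k4] at this
    exact this
  choose g hg using hex
  have hgc : Continuous g := by
    refine k1.continuous_iff.2 ?_
    have : ψ ∘ g = h ∘ φ := funext hg
    rw [this]
    exact h.continuous.comp h1.continuous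
  have hgi : Function.Injective g := fun r s e => by
    have : h (φ r) = h (φ s) := by rw [← hg, ← hg, e]
    exact h1.injective (h.injective this)
  have g0 : g 0 = 0 := k1.injective (by rw [hg, h2, ht, k2])
  have g1 : g 1 = 1 := k1.injective (by rw [hg, h3, k3])
  have hmono : StrictMono g := by
    refine hgc.strictMono_of_inj_boundedOrder ?_ hgi
    change g 0 ≤ g 1
    rw [g0, g1]
    exact zero_le_one
  have hsurj : Function.Surjective g := fun s => by
    have : ψ s ∈ h '' B := k4 ▸ ⟨s, rfl⟩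
    obtain ⟨_, hz, e⟩ := this
    rw [← h4] at hz
    obtain ⟨r, rfl⟩ := hz
    exact ⟨r, k1.injective (by rw [hg, e])⟩
  have himg : ∀ S : Set I, ψ '' (g '' S) = h '' (φ '' S) := fun S => by
    rw [← image_comp, ← image_comp]
    exact image_congr fun r _ => hg r
  refine ⟨StrictMono.orderIsoOfSurjective g hmono hsurj, ?_, ?_⟩
  · change g '' X = X'
    refine k1.injective.image_injective ?_
    rw [himg, h5, k5, image_inter h.injective, h.image_closure, image_sdiff h.injective,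
      ends_image]
  · change g '' Y = Y'
    refine k1.injective.image_injective ?_
    rw [himg, h6, k6, image_inter h.injective, h.image_closure, image_sdiff h.injective,
      image_sdiff h.injective, h.image_closure, ends_image]

end gen

variable {c : Wt}

lemma second {Z Y : Set ℝ} (hZ : IsClosed Z) (h0 : 0 ∈ Z) (hZ1 : ∀ s ∈ Z, 0 ≤ s ∧ s < 1)
    (hA : ∀ d, 0 ≤ d → d ≠ 0 → max 0 (1 - wt c d) ∈ Z)
    (hB : Z ⊆ closure {s | s ∈ Icc (0 : ℝ) 1 ∧ ∃ w, Att c w ∧ s = max 0 (1 - w)})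
    (hYc : IsClosed Y) (hY0 : 0 ∈ Y)
    (hYA : ∀ v ∈ Z, ∀ d, 0 ≤ d → d ≠ 0 → max 0 (v - wt c d) ∈ Y)
    (hYB : ∀ s ∈ Y, s ∈ Icc (0 : ℝ) 1 ∧ ∃ v ∈ Z, 0 < v ∧ ∃ w, Att c w ∧ s = max 0 (v - w))
    {g : I → ℝ} (hc : Continuous g) (hi : Function.Injective g) (hr : range g = Icc 0 1)
    (g0 : g 0 = 0) (g1 : g 1 = 1) {X Y' : Set I} (hX : g '' X = Z) (hX' : g '' Y' = Y) :
    Second (top c) X Y' := by
  intro e he B hB'
  rw [ends] at he
  obtain ⟨b, rfl⟩ := he
  obtain rfl := arc_uniq hB' (arc0 b ⟨one_pos, le_rfl⟩)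
  have hpar := par (c := c) b hc hi hr.subset
  rw [g0, g1, hr, pt_top b le_rfl] at hpar
  have first : ∀ b : Γ, ∀ s ∈ Z, pt c b s ∈ closure (Ends (FF c) \ (pt c b '' Icc 0 1)) := by
    intro b s hs
    rw [← closure_closure]
    refine map_mem_closure (pt_cont b) (hB hs) ?_
    rintro s' ⟨q1, w, q2, q3⟩
    have e : pt c b s' = pt c b (1 - w) := by
      rcases le_total 0 (1 - w) with h | h
      · rw [q3, max_eq_right h]
      · rw [q3, max_eq_left h, pt_top b h, pt_top b le_rfl]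
    rw [e]
    exact lim b le_rfl q2 fun b' hb => ⟨mem_ends b', fun ⟨v, hv, e⟩ =>
      hb (pt_bl ⟨one_pos, le_rfl⟩ hv.2 e.symm)⟩
  refine ⟨_, hpar, ?_, ?_⟩
  · rw [image_comp, hX]
    ext z
    constructor
    · rintro ⟨s, hs, rfl⟩
      exact ⟨⟨s, ⟨(hZ1 s hs).1, (hZ1 s hs).2.le⟩, rfl⟩, first b s hs⟩
    · rintro ⟨⟨s, hs, rfl⟩, h⟩
      exact ⟨s, cl_mem hZ h0 hA (mem_image_of_mem _ (right_mem_Icc.2 zero_le_one)) hs h, rfl⟩
  · rw [image_comp, hX']
    ext z
    constructor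
    · rintro ⟨s, hs, rfl⟩
      obtain ⟨q1, v, hv, hv0, w, q2, q3⟩ := hYB s hs
      refine ⟨⟨s, q1, rfl⟩, ?_⟩
      have e : pt c b s = pt c b (v - w) := by
        rcases le_total 0 (v - w) with h | h
        · rw [q3, max_eq_right h]
        · rw [q3, max_eq_left h, pt_top b h, pt_top b le_rfl]
      rw [e]
      have hv1 := (hZ1 v hv).2
      refine lim b hv1.le q2 fun b' hb => ⟨⟨?_, ?_⟩, ?_⟩
      · exact closure_mono sdiff_subset (first b' v hv)
      · rw [ends]
        rintro ⟨b'', e⟩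
        obtain rfl := pt_bl ⟨one_pos, le_rfl⟩ hv1.le e
        exact hv1.ne' (pt_inj ⟨zero_le_one, le_rfl⟩ ⟨hv0.le, hv1.le⟩ e)
      · rintro ⟨r, hr, e⟩
        exact hb (pt_bl ⟨hv0, hv1.le⟩ hr.2 e.symm)
    · rintro ⟨⟨s, hs, rfl⟩, h⟩
      refine ⟨s, ?_, rfl⟩
      rw [← val_self (c := c) b hs]
      refine hYc.closure_subset (map_mem_closure (f := fun z => val z b) (cv b) h ?_)
      intro z hz
      obtain ⟨b', v, hv, rfl⟩ := ex_pt z
      have m : v ∈ Z := by
        refine cl_mem (T := {pt c b' 1}) hZ h0 hA rfl hv ?_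
        have := hz.1.1
        rw [← sdiff_union_of_subset (singleton_subset_iff.2 (mem_ends (c := c) b')), closure_union,
          closure_singleton] at this
        exact this.resolve_right fun e => hz.1.2 (e ▸ mem_ends b')
      have hb : b' ≠ b := by
        rintro rfl
        exact hz.2 ⟨v, hv, rfl⟩
      show val (pt c b' v) b ∈ Y
      rw [val_pt _ hv.2, ph]
      split_ifs with e
      · exact hYA v m _ (sub_nonneg.2 e) (sub_ne_zero.2 hb)
      · exact hY0

/-- weights with prescribed levels -/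
lemma exists_c {Z : Set ℝ} (hZ : ∀ s ∈ Z, s ≤ 5 / 8) {p : ℝ} (hp : p ∈ Z) :
    ∃ c : Wt, (∀ k, 1 - c.1 k ∈ Z) ∧ (∀ n : ℕ, 0 < n → Att c ((1 - p) * n)) ∧
      Z ⊆ closure {s | s ∈ Z ∧ Att c (1 - s)} := by
  obtain ⟨T, hT1, hT2, hT3⟩ :=
    (TopologicalSpace.IsSeparable.of_separableSpace Z).exists_countable_dense_subset
  obtain ⟨f, hf⟩ := (hT2.union (countable_singleton p)).exists_eq_range ⟨p, Or.inr rfl⟩
  have hfZ : ∀ i, f i ∈ Z := fun i => by
    have : f i ∈ T ∪ {p} := hf ▸ ⟨i, rfl⟩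
    rcases this with h | h
    · exact hT1 h
    · rw [mem_singleton_iff.1 h]; exact hp
  let c : Wt := ⟨fun k => 1 - f (Nat.unpair k).1, fun k => by
    have := hZ _ (hfZ (Nat.unpair k).1)
    dsimp only
    linarith⟩
  have hatt : ∀ (i n : ℕ), 0 < n → Att c ((1 - f i) * n) := fun i n hn k =>
    ⟨Nat.pair i k, Nat.right_le_pair i k, n, hn, by simp [c]⟩
  refine ⟨c, fun k => ?_, fun n hn => ?_, fun s hs => ?_⟩
  · simpa [c] using hfZ (Nat.unpair k).1
  · obtain ⟨i, hi⟩ : p ∈ range f := hf ▸ Or.inr rfl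
    rw [← hi]
    exact hatt i n hn
  · refine closure_mono ?_ (hT3 hs)
    intro s hs
    obtain ⟨i, hi⟩ : s ∈ range f := hf ▸ Or.inl hs
    refine ⟨hT1 hs, ?_⟩
    rw [← hi]
    simpa using hatt i 1 one_pos

end Pool.Agent.H11.Fan
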